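import Pool.Agent.H77.TL.Stm2

/-! Crew TL, part AC2D (helper20). -/

set_option autoImplicit false
set_option linter.all false

namespace Pool.Agent.H20.TL

open Finset Pool.MP324

theorem lp_lt {y : ℝ} (hy0 : 0 < y) (hy1 : y < 1) : Pool.MP324.lp y < 1 := by
  rw [Pool.MP324.lp, Real.logb_lt_iff_lt_rpow (by norm_num) (by linarith)]
  norm_num
  linarith

theorem lp_pos {y : ℝ} (hy0 : 0 < y) (hy1 : y < 1) : 0 < Pool.MP324.lp y := by
  rw [Pool.MP324.lp]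
  exact Real.logb_pos (by norm_num) (by linarith)

theorem lm_neg {y : ℝ} (hy0 : 0 < y) (hy1 : y < 1) : lm y < 0 := by
  rw [lm]
  exact Real.logb_neg (by norm_num) (by linarith) (by linarith)

/-- `w` at `n`, with `a = 1/(n+1)` -/
theorem w_eq {n a : ℝ} (hn : 0 < n + 1) (ha : a = 1 / (n + 1)) (hn0 : 0 < n + 7 / 4) :
    w n = a * ((33 / 5) * ((a * a) * ((1 + 3 * (a / 2 / 2))⁻¹ * ((1 + 3 * (a / 2 / 2))⁻¹ * (1 + 3 * (a / 2 / 2))⁻¹)))) := by
  have e : 1 + 3 * (a / 2 / 2) = (n + 7 / 4) * a := by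
    rw [ha]; field_simp; ring
  rw [e, w, ha]
  field_simp

/-- `Jy` at `n`, with `a = 1/(n+1)` -/
theorem Jy_eq {n a y : ℝ} (hn : 0 < n + 1) (ha : a = 1 / (n + 1)) (h1 : 0 < n + 1 - Pool.MP324.lp y)
    (h2 : 0 < n + 1 - lm y) :
    Jy n y = (1 - a) * ((Pool.MP324.lp y * (1 - a * Pool.MP324.lp y)⁻¹
        + cc * (1 - a * Pool.MP324.lp y)⁻¹ * (1 - a * Pool.MP324.lp y)⁻¹)
      + ((- lm y) * (1 + a * (- lm y))⁻¹ - cc * (1 + a * (- lm y))⁻¹ * (1 + a * (- lm y))⁻¹)) / 2 := by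
  have e1 : 1 - a * Pool.MP324.lp y = a * (n + 1 - Pool.MP324.lp y) := by
    rw [ha]; field_simp
  have e2 : 1 + a * (- lm y) = a * (n + 1 - lm y) := by
    rw [ha]; field_simp; ring
  rw [e1, e2, Jy, ap, am, ha]
  field_simp
  ring

/-- the value of `f_y` and of the increment -/
theorem fa_eq {n a y : ℝ} (hn : 0 < n + 1) (ha : a = 1 / (n + 1)) (h1 : 0 < n + 1 - Pool.MP324.lp y)
    (h2 : 0 < n + 1 - lm y) :
    fy n y = (1 - w n) * Jy n y + w n * qy y ∧ a ≠ 0 := by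
  refine ⟨rfl, ?_⟩
  rw [ha]
  positivity

/-- purely algebraic form of the increment identity -/
theorem ha_alg {a l L c W q a1 a2 J : ℝ} (h1 : a1 * (1 - a * l) = 1) (h2 : a2 * (1 + a * L) = 1)
    (hJ : J = (1 - a) * (l * a1 + c * a1 * a1 + (L * a2 - c * a2 * a2)) / 2) :
    a * ((l * (l * a1) + c * (l * a1) * (1 + a1) - l * a1 - c * a1 * a1
        - (L * (L * a2) - c * (L * a2) * (1 + a2) + L * a2 - c * a2 * a2)) / 2 + W * (q - J))
      = J + a * W * (q - J) - (l + L) / 2 := by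
  rw [hJ]
  have e1 : a * (l * a1) = a1 - 1 := by linarith
  have e2 : a * (L * a2) = 1 - a2 := by linarith
  linear_combination ((l + c * (1 + a1)) / 2) * e1 + ((- L + c * (1 + a2)) / 2) * e2

/-- the identity: `c2D = x [(m+1-c+L/x) f_y(m_+) - (m+1-c+l/x) f_y(m_-)]` -/
theorem c2D_key {m x : ℝ} (hm : 0 < mp m x) (hx0 : 0 < x) (hx1 : x < 1) :
    c2D opsR (1 / (m + 1)) x (Pool.MP324.lp x) (- lm x) cc (Real.log 2) (33 / 5)
      = x * ((m + 1 - cc - lm x / x) * fy (mp m x) x - (m + 1 - cc + Pool.MP324.lp x / x) * fy (mn m x) x) := by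
  have hl1 := lp_lt hx0 hx1
  have hl0 := lp_pos hx0 hx1
  have hl2 := lm_neg hx0 hx1
  have hm' : 0 < m - Pool.MP324.lp x := hm
  have hmu : 0 < m + 1 := by linarith
  have hmp : mp m x = m - Pool.MP324.lp x := rfl
  have hmn : mn m x = m - lm x := rfl
  -- the quantities at mp
  have hA1 : 0 < mp m x + 1 := by linarith
  have hA2 : 0 < mp m x + 1 - Pool.MP324.lp x := by linarith
  have hA3 : 0 < mp m x + 1 - lm x := by linarith
  have hB0 : 0 < mn m x := by rw [hmn]; linarith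
  have hB1 : 0 < mn m x + 1 := by linarith
  have hB2 : 0 < mn m x + 1 - Pool.MP324.lp x := by linarith
  have hB3 : 0 < mn m x + 1 - lm x := by linarith
  obtain ⟨mu, hmud⟩ : ∃ v, v = 1 / (m + 1) := ⟨_, rfl⟩
  obtain ⟨l, hl⟩ : ∃ v, v = Pool.MP324.lp x := ⟨_, rfl⟩
  obtain ⟨L, hL⟩ : ∃ v, v = - lm x := ⟨_, rfl⟩
  obtain ⟨dp, hdp⟩ : ∃ v, v = (1 - mu * l)⁻¹ := ⟨_, rfl⟩
  obtain ⟨dm, hdm⟩ : ∃ v, v = (1 + mu * L)⁻¹ := ⟨_, rfl⟩
  have hmu1 : mu * (m + 1) = 1 := by rw [hmud]; field_simp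
  have hmu0 : 0 < mu := by rw [hmud]; positivity
  have ea : mu * dp = 1 / (mp m x + 1) := by
    have e : 1 - mu * l = mu * (mp m x + 1) := by
      rw [hmp, hl]; linear_combination -hmu1
    rw [hdp, e]
    field_simp
  have eb : mu * dm = 1 / (mn m x + 1) := by
    have e : 1 + mu * L = mu * (mn m x + 1) := by
      rw [hmn, hL]; linear_combination -hmu1
    rw [hdm, e]
    field_simp
  obtain ⟨a, hadef⟩ : ∃ v, v = mu * dp := ⟨_, rfl⟩
  obtain ⟨b, hbdef⟩ : ∃ v, v = mu * dm := ⟨_, rfl⟩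
  rw [← hadef] at ea
  rw [← hbdef] at eb
  have hwa := w_eq hA1 ea (by linarith)
  have hwb := w_eq hB1 eb (by linarith)
  have hJa := Jy_eq (y := x) hA1 ea hA2 hA3
  have hJb := Jy_eq (y := x) hB1 eb hB2 hB3
  rw [← hl, ← hL] at hJa hJb
  obtain ⟨a1, ha1⟩ : ∃ v, v = (1 - a * l)⁻¹ := ⟨_, rfl⟩
  obtain ⟨a2, ha2⟩ : ∃ v, v = (1 + a * L)⁻¹ := ⟨_, rfl⟩
  obtain ⟨b1, hb1⟩ : ∃ v, v = (1 - b * l)⁻¹ := ⟨_, rfl⟩
  obtain ⟨b2, hb2⟩ : ∃ v, v = (1 + b * L)⁻¹ := ⟨_, rfl⟩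
  obtain ⟨ra, hra⟩ : ∃ v, v = (1 + 3 * (a / 2 / 2))⁻¹ := ⟨_, rfl⟩
  obtain ⟨rb, hrb⟩ : ∃ v, v = (1 + 3 * (b / 2 / 2))⁻¹ := ⟨_, rfl⟩
  rw [← ha1, ← ha2] at hJa
  rw [← hb1, ← hb2] at hJb
  rw [← hra] at hwa
  rw [← hrb] at hwb
  have ha0 : a ≠ 0 := by rw [ea]; positivity
  have hb0 : b ≠ 0 := by rw [eb]; positivity
  have ka1 : a1 * (1 - a * l) = 1 := by
    have e : 1 - a * l = a * (mp m x + 1 - Pool.MP324.lp x) := by
      rw [ea, hl]; field_simp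
    have : 1 - a * l ≠ 0 := by rw [e]; exact mul_ne_zero ha0 hA2.ne'
    rw [ha1]; field_simp
  have ka2 : a2 * (1 + a * L) = 1 := by
    have e : 1 + a * L = a * (mp m x + 1 - lm x) := by
      rw [ea, hL]; field_simp; ring
    have : 1 + a * L ≠ 0 := by rw [e]; exact mul_ne_zero ha0 hA3.ne'
    rw [ha2]; field_simp
  have kb1 : b1 * (1 - b * l) = 1 := by
    have e : 1 - b * l = b * (mn m x + 1 - Pool.MP324.lp x) := by
      rw [eb, hl]; field_simp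
    have : 1 - b * l ≠ 0 := by rw [e]; exact mul_ne_zero hb0 hB2.ne'
    rw [hb1]; field_simp
  have kb2 : b2 * (1 + b * L) = 1 := by
    have e : 1 + b * L = b * (mn m x + 1 - lm x) := by
      rw [eb, hL]; field_simp; ring
    have : 1 + b * L ≠ 0 := by rw [e]; exact mul_ne_zero hb0 hB3.ne'
    rw [hb2]; field_simp
  obtain ⟨Wa, hWa⟩ : ∃ v, v = (33 / 5) * ((a * a) * (ra * (ra * ra))) := ⟨_, rfl⟩
  obtain ⟨Wb, hWb⟩ : ∃ v, v = (33 / 5) * ((b * b) * (rb * (rb * rb))) := ⟨_, rfl⟩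
  rw [← hWa] at hwa
  rw [← hWb] at hwb
  obtain ⟨Ja, hJad⟩ : ∃ v, v = Jy (mp m x) x := ⟨_, rfl⟩
  obtain ⟨Jb, hJbd⟩ : ∃ v, v = Jy (mn m x) x := ⟨_, rfl⟩
  rw [← hJad] at hJa
  rw [← hJbd] at hJb
  have ia := ha_alg (W := Wa) (q := qy x) ka1 ka2 hJa
  have ib := ha_alg (W := Wb) (q := qy x) kb1 kb2 hJb
  have efa : fy (mp m x) x = Ja + a * Wa * (qy x - Ja) := by
    rw [fy, hwa, ← hJad]; ring
  have efb : fy (mn m x) x = Jb + b * Wb * (qy x - Jb) := by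
    rw [fy, hwb, ← hJbd]; ring
  -- unfold c2D
  have ec : c2D opsR (1 / (m + 1)) x (Pool.MP324.lp x) (- lm x) cc (Real.log 2) (33 / 5)
      = (L - cc * x) * (Ja + a * Wa * (qy x - Ja)) - (l - cc * x) * (Jb + b * Wb * (qy x - Jb))
        + x * (dp * ((l * (l * a1) + cc * (l * a1) * (1 + a1) - l * a1 - cc * a1 * a1
        - (L * (L * a2) - cc * (L * a2) * (1 + a2) + L * a2 - cc * a2 * a2)) / 2 + Wa * (qy x - Ja))
        - dm * ((l * (l * b1) + cc * (l * b1) * (1 + b1) - l * b1 - cc * b1 * b1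
        - (L * (L * b2) - cc * (L * b2) * (1 + b2) + L * b2 - cc * b2 * b2)) / 2 + Wb * (qy x - Jb))) := by
    rw [← hl, ← hL, ← hmud, hJa, hJb, hWa, hWb, ha1, ha2, hb1, hb2, hra, hrb, hadef, hbdef, hdp, hdm]
    simp only [c2D, opsR, qy]
    push_cast
    ring
  rw [ec, efa, efb]
  have hLx : lm x = - L := by rw [hL]; ring
  rw [hLx, ← hl]
  -- multiply by mu
  have hx : x ≠ 0 := hx0.ne'
  have hm1 : m + 1 = 1 / mu := by field_simp; linarith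
  have k1 : dp * ((l * (l * a1) + cc * (l * a1) * (1 + a1) - l * a1 - cc * a1 * a1
        - (L * (L * a2) - cc * (L * a2) * (1 + a2) + L * a2 - cc * a2 * a2)) / 2 + Wa * (qy x - Ja))
      = (m + 1) * (Ja + a * Wa * (qy x - Ja) - (l + L) / 2) := by
    rw [← ia, hadef]
    linear_combination (-(dp * ((l * (l * a1) + cc * (l * a1) * (1 + a1) - l * a1 - cc * a1 * a1
        - (L * (L * a2) - cc * (L * a2) * (1 + a2) + L * a2 - cc * a2 * a2)) / 2 + Wa * (qy x - Ja)))) * hmu1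
  have k2 : dm * ((l * (l * b1) + cc * (l * b1) * (1 + b1) - l * b1 - cc * b1 * b1
        - (L * (L * b2) - cc * (L * b2) * (1 + b2) + L * b2 - cc * b2 * b2)) / 2 + Wb * (qy x - Jb))
      = (m + 1) * (Jb + b * Wb * (qy x - Jb) - (l + L) / 2) := by
    rw [← ib, hbdef]
    linear_combination (-(dm * ((l * (l * b1) + cc * (l * b1) * (1 + b1) - l * b1 - cc * b1 * b1
        - (L * (L * b2) - cc * (L * b2) * (1 + b2) + L * b2 - cc * b2 * b2)) / 2 + Wb * (qy x - Jb)))) * hmu1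
  rw [k1, k2]
  field_simp
  ring

theorem AC2D : S_AC2D := by
  intro m x hm hx0 hx1 h
  rw [c2D_key hm hx0 hx1] at h
  have := (mul_pos_iff_of_pos_left hx0).mp h
  linarith

end Pool.Agent.H20.TL
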