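import Pool.Agent.H20.TL.AC2D

/-! Crew TL, part AC2E (helper20). -/

set_option autoImplicit false
set_option linter.all false

namespace Pool.Agent.H20.TL

open Finset Pool.MP324

theorem c2E_rel {mu io ze x l c l2 k : ℝ} (hio : io ≠ 0) (hze : ze ≠ 0) (hx : x ≠ 0)
    (hz : ze * (1 + mu * io⁻¹) = 1) :
    c2E opsR mu io ze (io * ze⁻¹) (1 - x) l c l2 k
      = c2D opsR mu x l io⁻¹ c l2 k * (io * (io * ze⁻¹) * x⁻¹) := by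
  have e1 : (1 + mu * io⁻¹)⁻¹ = ze := (eq_inv_of_mul_eq_one_left hz).symm
  obtain ⟨dp, hdp⟩ : ∃ v, v = (1 - mu * l)⁻¹ := ⟨_, rfl⟩
  have e2 : (1 + mu * dp * io⁻¹)⁻¹ = ze * (ze + (1 - ze) * dp)⁻¹ := by
    have h : ze + (1 - ze) * dp = ze * (1 + mu * dp * io⁻¹) := by
      linear_combination (-dp) * hz
    rw [h, mul_inv]
    field_simp
  have e3 : (1 + mu * ze * io⁻¹)⁻¹ = (2 - ze)⁻¹ := by
    congr 1
    linear_combination hz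
  obtain ⟨ra, hra⟩ : ∃ v, v = (ze + (1 - ze) * dp)⁻¹ := ⟨_, rfl⟩
  obtain ⟨b2, hb2⟩ : ∃ v, v = (2 - ze)⁻¹ := ⟨_, rfl⟩
  obtain ⟨a1, ha1⟩ : ∃ v, v = (1 - mu * dp * l)⁻¹ := ⟨_, rfl⟩
  obtain ⟨b1, hb1⟩ : ∃ v, v = (1 - mu * ze * l)⁻¹ := ⟨_, rfl⟩
  obtain ⟨rh, hrh⟩ : ∃ v, v = (1 + 3 * (mu * dp / 2 / 2))⁻¹ := ⟨_, rfl⟩
  obtain ⟨rg, hrg⟩ : ∃ v, v = (1 + 3 * (mu * ze / 2 / 2))⁻¹ := ⟨_, rfl⟩
  rw [← hra] at e2
  rw [← hb2] at e3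
  have ex : 1 - (1 - x) = x := by ring
  simp only [c2E, c2D, opsR]
  push_cast
  simp only [ex, e1, ← hdp, e2, e3, ← hra, ← hb2, ← ha1, ← hb1, ← hrh, ← hrg]
  obtain ⟨W1, hW1⟩ : ∃ v, v = k * ((mu * dp) * (mu * dp) * (rh * (rh * rh))) := ⟨_, rfl⟩
  obtain ⟨W2, hW2⟩ : ∃ v, v = k * ((mu * ze) * (mu * ze) * (rg * (rg * rg))) := ⟨_, rfl⟩
  rw [← hW1, ← hW2]
  field_simp
  ring

theorem AC2E : S_AC2E := by
  intro m x hm hx0 hx1 h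
  apply AC2D m x hm hx0 hx1
  have hl1 := lp_lt hx0 hx1
  have hl0 := lp_pos hx0 hx1
  have hl2 := lm_neg hx0 hx1
  have hm' : 0 < m - Pool.MP324.lp x := hm
  have hmu : 0 < m + 1 := by linarith
  have hL : 0 < - lm x := by linarith
  have hmu0 : 0 < 1 / (m + 1) := by positivity
  have hz0 : 0 < 1 + 1 / (m + 1) * (- lm x) := by positivity
  obtain ⟨io, hio⟩ : ∃ v, v = 1 / (- lm x) := ⟨_, rfl⟩
  obtain ⟨ze, hze⟩ : ∃ v, v = 1 / (1 + 1 / (m + 1) * (- lm x)) := ⟨_, rfl⟩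
  obtain ⟨mu, hmud⟩ : ∃ v, v = 1 / (m + 1) := ⟨_, rfl⟩
  obtain ⟨L, hLd⟩ : ∃ v, v = - lm x := ⟨_, rfl⟩
  rw [← hmud] at hze
  rw [← hio, ← hmud, ← hze] at h
  rw [← hmud] at hz0
  rw [← hmud] at hmu0
  rw [← hmud]
  rw [← hLd] at hio hze hL hz0
  rw [← hLd] 
  have hio0 : 0 < io := by rw [hio]; positivity
  have hze0 : 0 < ze := by rw [hze]; positivity
  have eL : L = io⁻¹ := by rw [hio]; field_simp
  have hz : ze * (1 + mu * io⁻¹) = 1 := by rw [← eL, hze]; field_simp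
  have eS : io + mu = io * ze⁻¹ := by
    have : ze⁻¹ = 1 + mu * io⁻¹ := by
      field_simp
      field_simp at hz
      linarith
    rw [this]
    field_simp
  rw [eS, c2E_rel hio0.ne' hze0.ne' hx0.ne' hz] at h
  rw [eL]
  exact (mul_pos_iff_of_pos_right (by positivity)).mp h

end Pool.Agent.H20.TL
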